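import Pool.Agent.H.MP_32aa3b_co.A

namespace Pool.Agent.Results.MP_32aa3b_co.Counter

open Pool.Agent.H.MP_32aa3b_co

/-- `Q` is a `q`-kernel of the digraph with arc relation `A`: it is independent, and every vertex
is the endpoint of a directed path (distinct vertices) of length at most `q` starting in `Q`. -/
def IsQKernel {V : Type} (A : V → V → Prop) (q : ℕ) (Q : Finset V) : Prop :=
  (∀ u ∈ Q, ∀ v ∈ Q, ¬ A u v) ∧
    ∀ v, ∃ l ≤ q, ∃ p : Fin (l + 1) → V, Function.Injective p ∧ p 0 ∈ Q ∧ p (Fin.last l) = v ∧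
      ∀ i : Fin l, A (p i.castSucc) (p i.succ)

theorem result (k : ℕ) (hk : 170000 ≤ k) :
    ∃ (V : Type) (_ : Fintype V) (A : V → V → Prop),
      (∀ v, ¬ A v v) ∧ (∀ v, 4 * k ≤ {u | A u v}.ncard) ∧ (∃ v, {u | A u v}.ncard = 4 * k) ∧
      ∀ Q : Finset V, IsQKernel A 3 Q →
        (Fintype.card V : ℝ) / ((4 * k : ℕ) + 1) < (Q.card : ℝ) := by
  refine ⟨W k, inferInstance, Arc k, irrefl k, indeg k,
    ⟨_, indeg_eq k (0, 0, ⟨0, by omega⟩)⟩, fun Q hQ => ?_⟩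
  have h22 : 22 ≤ Q.card := by
    refine big (by omega) Q hQ.1 fun v => ?_
    obtain ⟨l, hl, p, -, h0, h1, h2⟩ := hQ.2 v
    subst h1
    interval_cases l
    · exact Or.inl h0
    · exact Or.inr (Or.inl ⟨_, h0, h2 0⟩)
    · exact Or.inr (Or.inr (Or.inl ⟨_, h0, _, h2 0, h2 1⟩))
    · exact Or.inr (Or.inr (Or.inr ⟨_, h0, _, _, h2 0, h2 1, h2 2⟩))
  rw [card_W, div_lt_iff₀ (by positivity)]
  have h1 : (22 : ℝ) ≤ Q.card := by exact_mod_cast h22
  have h2 : (170000 : ℝ) ≤ k := by exact_mod_cast hk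
  push_cast
  nlinarith

end Pool.Agent.Results.MP_32aa3b_co.Counter
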